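import Pool.Agent.Helper81.PK.Defs

/-!
From the Kakeya statement with `|D|^η` slices to lower bounds for all sets of moduli.
-/

open Finset Filter Topology

namespace Pool.Agent.Helper81.PK

lemma class_rep {m : ℕ} (hm : 0 < m) (r : ZMod m) (u : ℤ) :
    ∃ x : ℤ, u < x ∧ x ≤ u + m ∧ (x : ZMod m) = r := by
  have : NeZero m := ⟨hm.ne'⟩
  have hm' : (0 : ℤ) < m := by exact_mod_cast hm
  refine ⟨u + 1 + ((r.val : ℤ) - (u + 1)) % m, ?_, ?_, ?_⟩
  · have := Int.emod_nonneg ((r.val : ℤ) - (u + 1)) hm'.ne'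
    linarith
  · have := Int.emod_lt_of_pos ((r.val : ℤ) - (u + 1)) hm'
    omega
  · have h1 : (((u + 1 + ((r.val : ℤ) - (u + 1)) % m : ℤ)) : ZMod m) = ((r.val : ℤ) : ZMod m) := by
      rw [ZMod.intCast_eq_intCast_iff_dvd_sub]
      have := Int.emod_add_mul_ediv ((r.val : ℤ) - (u + 1)) m
      exact ⟨((r.val : ℤ) - (u + 1)) / m, by linarith⟩
    rw [h1, Int.cast_natCast, ZMod.natCast_zmod_val]

/-- one window. -/
lemma window_bound (M : Finset ℕ) (B k : ℕ) (hM : ∀ m ∈ M, 0 < m ∧ m ≤ B) (N : ℕ)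
    (a : (m : ℕ) → ZMod m) (c : ℝ)
    (h : ∀ x : ℤ → ℤ, ∃ j : ℕ, j ≤ k ∧
      c ≤ (((M.image (fun m : ℕ => (m : ℤ))).image fun d => x d + j * d).card : ℝ))
    (w : ℕ) (hw : (w + 1) * ((k + 1) * B) ≤ N) :
    c ≤ (({n ∈ Icc 1 N | (∃ m ∈ M, (n : ZMod m) = a m) ∧ (n - 1) / ((k + 1) * B) = w} : Finset ℕ).card : ℝ) := by
  classical
  have hch : ∀ m : ℕ, ∃ x : ℤ, 0 < m → (((w * ((k + 1) * B) : ℕ) : ℤ) < x ∧
      x ≤ ((w * ((k + 1) * B) : ℕ) : ℤ) + m ∧ (x : ZMod m) = a m) := by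
    intro m
    by_cases hm : 0 < m
    · obtain ⟨x, hx⟩ := class_rep hm (a m) ((w * ((k + 1) * B) : ℕ) : ℤ)
      exact ⟨x, fun _ => hx⟩
    · exact ⟨0, fun h => absurd h hm⟩
  choose y hy using hch
  obtain ⟨j, hj, hc⟩ := h (fun d => y d.toNat)
  refine hc.trans ?_
  have key : (((M.image (fun m : ℕ => (m : ℤ))).image fun d => y d.toNat + j * d).card) ≤
      (({n ∈ Icc 1 N | (∃ m ∈ M, (n : ZMod m) = a m) ∧ (n - 1) / ((k + 1) * B) = w} : Finset ℕ).card) := by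
    apply card_le_card_of_injOn (fun z : ℤ => z.toNat)
    · intro z hz
      rw [mem_coe, mem_image] at hz
      obtain ⟨d, hd, rfl⟩ := hz
      rw [mem_image] at hd
      obtain ⟨m, hm, rfl⟩ := hd
      obtain ⟨hm0, hmB⟩ := hM m hm
      obtain ⟨h1, h2, h3⟩ := hy m hm0
      simp only [Int.toNat_natCast]
      have h4 : ((w * ((k + 1) * B) : ℕ) : ℤ) < y m + j * m := by
        have : (0 : ℤ) ≤ j * m := by positivity
        linarith
      have h5 : y m + j * m ≤ (((w + 1) * ((k + 1) * B) : ℕ) : ℤ) := by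
        have e1 : (j : ℤ) ≤ k := by exact_mod_cast hj
        have e2 : (m : ℤ) ≤ B := by exact_mod_cast hmB
        have e3 : (0 : ℤ) ≤ m := by positivity
        have e4 : (j + 1 : ℤ) * m ≤ (k + 1) * B := mul_le_mul (by linarith) e2 e3 (by positivity)
        push_cast at h2 ⊢
        linarith
      obtain ⟨z, hz⟩ : ∃ z : ℕ, y m + j * m = z := ⟨(y m + j * m).toNat, by omega⟩
      rw [hz] at h4 h5 ⊢
      rw [Int.toNat_natCast]
      have h4' : w * ((k + 1) * B) < z := by exact_mod_cast h4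
      have h5' : z ≤ (w + 1) * ((k + 1) * B) := by exact_mod_cast h5
      rw [mem_coe, mem_filter, mem_Icc]
      refine ⟨⟨by omega, h5'.trans hw⟩, ⟨m, hm, ?_⟩, ?_⟩
      · have h6 : ((z : ℤ) : ZMod m) = a m := by
          rw [← hz]
          push_cast
          rw [h3, ZMod.natCast_self, mul_zero, add_zero]
        exact_mod_cast h6
      · have hL : 0 < (k + 1) * B := by
          rcases Nat.eq_zero_or_pos ((k + 1) * B) with h0 | h0
          · rw [h0] at h4' h5'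
            omega
          · exact h0
        exact Nat.div_eq_of_lt_le (by omega) (by omega)
    · intro z hz z' hz' hzz
      have pos : ∀ z ∈ ((M.image (fun m : ℕ => (m : ℤ))).image fun d => y d.toNat + j * d), 0 < z := by
        intro z hz
        rw [mem_image] at hz
        obtain ⟨d, hd, rfl⟩ := hz
        rw [mem_image] at hd
        obtain ⟨m, hm, rfl⟩ := hd
        obtain ⟨hm0, hmB⟩ := hM m hm
        obtain ⟨h1, h2, h3⟩ := hy m hm0
        simp only [Int.toNat_natCast]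
        have : (0 : ℤ) ≤ j * m := by positivity
        have : (0 : ℤ) ≤ ((w * ((k + 1) * B) : ℕ) : ℤ) := by positivity
        linarith
      have h1 := pos z hz
      have h2 := pos z' hz'
      simp only at hzz
      omega
  exact_mod_cast key

/-- all windows. -/
lemma windows_bound (M : Finset ℕ) (B k : ℕ) (hM : ∀ m ∈ M, 0 < m ∧ m ≤ B) (N : ℕ)
    (a : (m : ℕ) → ZMod m) (c : ℝ)
    (h : ∀ x : ℤ → ℤ, ∃ j : ℕ, j ≤ k ∧
      c ≤ (((M.image (fun m : ℕ => (m : ℤ))).image fun d => x d + j * d).card : ℝ)) :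
    ((N / ((k + 1) * B) : ℕ) : ℝ) * c ≤ ((cov (M : Set ℕ) N a).ncard : ℝ) := by
  classical
  have h1 : cov (M : Set ℕ) N a = (({n ∈ Icc 1 N | (∃ m ∈ M, (n : ZMod m) = a m)} : Finset ℕ) : Set ℕ) := by
    ext n
    simp only [cov, Set.mem_ofPred_eq, mem_coe, mem_filter, mem_Icc]
    tauto
  rw [h1, Set.ncard_coe_finset]
  obtain ⟨L, hL⟩ : ∃ L : ℕ, L = (k + 1) * B := ⟨_, rfl⟩
  have hw : ∀ w ∈ range (N / L),
      c ≤ (({n ∈ Icc 1 N | (∃ m ∈ M, (n : ZMod m) = a m) ∧ (n - 1) / L = w} : Finset ℕ).card : ℝ) := by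
    intro w hw
    rw [mem_range] at hw
    rw [hL] at hw ⊢
    refine window_bound M B k hM N a c h w ?_
    exact (Nat.mul_le_mul_right _ hw).trans (Nat.div_mul_le_self _ _)
  rw [← hL]
  have h2 : ∑ w ∈ range (N / L), (({n ∈ Icc 1 N | (∃ m ∈ M, (n : ZMod m) = a m) ∧ (n - 1) / L = w} : Finset ℕ).card) ≤
      ({n ∈ Icc 1 N | (∃ m ∈ M, (n : ZMod m) = a m)} : Finset ℕ).card := by
    rw [← card_biUnion]
    · apply card_le_card
      intro n hn
      rw [mem_biUnion] at hn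
      obtain ⟨w, _, hn⟩ := hn
      rw [mem_filter] at hn ⊢
      exact ⟨hn.1, hn.2.1⟩
    · intro w _ w' _ hne
      rw [Function.onFun, disjoint_left]
      intro n hn hn'
      rw [mem_filter] at hn hn'
      exact hne (hn.2.2.symm.trans hn'.2.2)
  calc ((N / L : ℕ) : ℝ) * c = ∑ _w ∈ range (N / L), c := by rw [sum_const, card_range, nsmul_eq_mul]
    _ ≤ ∑ w ∈ range (N / L), ((({n ∈ Icc 1 N | (∃ m ∈ M, (n : ZMod m) = a m) ∧ (n - 1) / L = w} : Finset ℕ).card : ℕ) : ℝ) :=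
        sum_le_sum hw
    _ ≤ _ := by exact_mod_cast h2

lemma all_of_kakeya (θ : ℝ) (hθ1 : θ ≤ 1) (h : Kakeya θ) (α : ℝ) (h0 : 0 < α) (h1 : α < 1)
    (ε : ℝ) (hε : 0 < ε) : ∃ N₀ : ℕ, ∀ N : ℕ, N₀ ≤ N → ∀ M : Finset ℕ, M.Nonempty →
      (∀ m ∈ M, m ∈ near α N) → ∀ a : (m : ℕ) → ZMod m,
      (M.card : ℝ) ^ θ * (N : ℝ) ^ (1 - α - ε) ≤ ((cov (M : Set ℕ) N a).ncard : ℝ) := by
  classical
  obtain ⟨δ, hδ0, hδε, hδα⟩ : ∃ δ : ℝ, 0 < δ ∧ δ ≤ ε ∧ δ ≤ 1 - α :=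
    ⟨min ε (1 - α), lt_min hε (by linarith), min_le_left _ _, min_le_right _ _⟩
  obtain ⟨n₀, hn₀⟩ := h (δ / 4) (by positivity) (δ / 8) (by positivity)
  have ev1 : ∀ᶠ N : ℝ in atTop, (n₀ : ℝ) ≤ N ^ (δ / 2) :=
    (tendsto_rpow_atTop (by positivity)).eventually_ge_atTop _
  have ev2 : ∀ᶠ N : ℝ in atTop, 48 * 4 ^ (3 * δ / 8) ≤ N ^ (δ / 8) :=
    (tendsto_rpow_atTop (by positivity)).eventually_ge_atTop _
  have ev3 : ∀ᶠ N : ℝ in atTop, 2 ≤ N ^ α :=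
    (tendsto_rpow_atTop h0).eventually_ge_atTop _
  have ev : ∀ᶠ N : ℕ in atTop, ((n₀ : ℝ) ≤ (N : ℝ) ^ (δ / 2) ∧ 48 * (4 : ℝ) ^ (3 * δ / 8) ≤ (N : ℝ) ^ (δ / 8)) ∧
      2 ≤ (N : ℝ) ^ α := by
    have := (tendsto_natCast_atTop_atTop (R := ℝ)).eventually ((ev1.and ev2).and ev3)
    exact this
  obtain ⟨N₀, hN₀⟩ := eventually_atTop.1 ev
  refine ⟨N₀ + 1, fun N hN M hMne hM a => ?_⟩
  obtain ⟨⟨e1, e2⟩, e3⟩ := hN₀ N (by omega)
  have hN1 : (1 : ℝ) ≤ N := by exact_mod_cast (by omega : 1 ≤ N)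
  have hN0 : (0 : ℝ) < N := by linarith
  obtain ⟨x, hx⟩ : ∃ x : ℝ, x = (N : ℝ) ^ α := ⟨_, rfl⟩
  have hx2 : 2 ≤ x := by rw [hx]; exact e3
  have hxN : x ≤ N := by
    rw [hx]
    calc (N : ℝ) ^ α ≤ (N : ℝ) ^ (1 : ℝ) := Real.rpow_le_rpow_of_exponent_le hN1 h1.le
      _ = N := Real.rpow_one _
  have h48 : (48 : ℝ) ≤ (N : ℝ) ^ (δ / 8) := by
    have : (1 : ℝ) ≤ 4 ^ (3 * δ / 8) := Real.one_le_rpow (by norm_num) (by positivity)
    linarith
  -- sizes of the moduli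
  have hm0 : ∀ m ∈ M, 0 < m := by
    intro m hm
    have := (hM m hm).1
    have h2 : (0 : ℝ) < m := by rw [← hx] at this; linarith
    exact_mod_cast h2
  obtain ⟨B, hB⟩ : ∃ B : ℕ, B = ⌈2 * x⌉₊ := ⟨_, rfl⟩
  have hB1 : 2 * x ≤ B := by rw [hB]; exact Nat.le_ceil _
  have hB2 : (B : ℝ) ≤ 3 * x := by
    have := Nat.ceil_lt_add_one (show 0 ≤ 2 * x by linarith)
    rw [← hB] at this
    linarith
  have hMB : ∀ m ∈ M, 0 < m ∧ m ≤ B := by
    intro m hm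
    refine ⟨hm0 m hm, ?_⟩
    have h2 := (hM m hm).2
    rw [← hx] at h2
    have : (m : ℝ) ≤ B := by linarith
    exact_mod_cast this
  have hcard : (M.card : ℝ) ≤ 4 * N := by
    have h2 : M ⊆ Icc 1 B := fun m hm => by
      rw [mem_Icc]
      have := hMB m hm
      omega
    have h3 := card_le_card h2
    rw [Nat.card_Icc] at h3
    have h4 : (M.card : ℝ) ≤ B := by exact_mod_cast (by omega : M.card ≤ B)
    linarith
  have hM1 : (1 : ℝ) ≤ M.card := by exact_mod_cast card_pos.2 hMne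
  -- it is enough to have `δ`
  have hgoal : (M.card : ℝ) ^ θ * (N : ℝ) ^ (1 - α - ε) ≤ (M.card : ℝ) ^ θ * (N : ℝ) ^ (1 - α - δ) :=
    mul_le_mul_of_nonneg_left (Real.rpow_le_rpow_of_exponent_le hN1 (by linarith)) (by positivity)
  refine hgoal.trans ?_
  have hpow : ∀ s t : ℝ, (N : ℝ) ^ s * (N : ℝ) ^ t = (N : ℝ) ^ (s + t) := fun s t => (Real.rpow_add hN0 s t).symm
  by_cases hcase : (M.card : ℝ) ^ θ ≤ (N : ℝ) ^ (δ / 2)
  · -- one class
    obtain ⟨m, hm⟩ := hMne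
    have h2 := windows_bound {m} m 0 (by intro m' hm'; rw [mem_singleton] at hm'; rw [hm']; exact ⟨hm0 m hm, le_refl _⟩)
      N a 1 (by
        intro x
        refine ⟨0, le_refl _, ?_⟩
        simp)
    have h3 : (cov (({m} : Finset ℕ) : Set ℕ) N a).ncard ≤ (cov (M : Set ℕ) N a).ncard :=
      cov_mono (by intro m' hm'; rw [coe_singleton, Set.mem_singleton_iff] at hm'; rw [hm']; exact hm) N a
    have h3' : ((cov (({m} : Finset ℕ) : Set ℕ) N a).ncard : ℝ) ≤ (cov (M : Set ℕ) N a).ncard := by exact_mod_cast h3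
    have hmx : (m : ℝ) < 2 * x := by rw [hx]; exact (hM m hm).2
    have hmpos : (0 : ℝ) < m := by exact_mod_cast hm0 m hm
    have h4 : (N : ℝ) ^ (1 - α) / 2 ≤ N / m := by
      have e5 : (N : ℝ) ^ (1 - α) = N / x := by
        rw [Real.rpow_sub hN0, Real.rpow_one, hx]
      rw [e5, div_div]
      apply div_le_div_of_nonneg_left hN0.le hmpos
      linarith
    have h5 : (N : ℝ) / m < ((N / ((0 + 1) * m) : ℕ) : ℝ) + 1 := by
      rw [zero_add, one_mul]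
      exact Nat.lt_floor_add_one ((N : ℝ) / m) |>.trans_eq (by rw [Nat.floor_div_eq_div])
    have h6 : (4 : ℝ) * (N : ℝ) ^ (1 - α - δ / 2) ≤ (N : ℝ) ^ (1 - α) := by
      have : (N : ℝ) ^ (1 - α) = (N : ℝ) ^ (δ / 2) * (N : ℝ) ^ (1 - α - δ / 2) := by
        rw [hpow]; congr 1; ring
      rw [this]
      refine mul_le_mul_of_nonneg_right ?_ (by positivity)
      have : (N : ℝ) ^ (δ / 8) ≤ (N : ℝ) ^ (δ / 2) := Real.rpow_le_rpow_of_exponent_le hN1 (by linarith)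
      linarith
    have h7 : (1 : ℝ) ≤ (N : ℝ) ^ (1 - α - δ / 2) := Real.one_le_rpow hN1 (by linarith)
    have h8 : (M.card : ℝ) ^ θ * (N : ℝ) ^ (1 - α - δ) ≤ (N : ℝ) ^ (1 - α - δ / 2) := by
      calc _ ≤ (N : ℝ) ^ (δ / 2) * (N : ℝ) ^ (1 - α - δ) := mul_le_mul_of_nonneg_right hcase (by positivity)
        _ = _ := by rw [hpow]; congr 1; ring
    linarith
  · push Not at hcase
    have hMbig : (N : ℝ) ^ (δ / 2) < M.card := by
      refine hcase.trans_le ?_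
      calc (M.card : ℝ) ^ θ ≤ (M.card : ℝ) ^ (1 : ℝ) := Real.rpow_le_rpow_of_exponent_le hM1 hθ1
        _ = M.card := Real.rpow_one _
    have hMn₀ : n₀ ≤ M.card := by
      have : (n₀ : ℝ) ≤ M.card := by linarith
      exact_mod_cast this
    obtain ⟨k, hk⟩ : ∃ k : ℕ, k = ⌊(M.card : ℝ) ^ (δ / 8)⌋₊ := ⟨_, rfl⟩
    have hkle : (k : ℝ) ≤ (M.card : ℝ) ^ (δ / 8) := by rw [hk]; exact Nat.floor_le (by positivity)
    have hcardim : (M.image (fun m : ℕ => (m : ℤ))).card = M.card :=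
      card_image_of_injective _ Nat.cast_injective
    have h2 := windows_bound M B k hMB N a ((M.card : ℝ) ^ (θ - δ / 4)) (by
      intro y
      obtain ⟨j, hj, hc⟩ := hn₀ (M.image (fun m : ℕ => (m : ℤ))) y (by rw [hcardim]; exact hMn₀)
      rw [hcardim] at hj hc
      exact ⟨j, by rw [hk]; exact Nat.le_floor hj, hc⟩)
    refine le_trans ?_ h2
    -- sizes
    have h3 : (M.card : ℝ) ^ θ = (M.card : ℝ) ^ (δ / 4) * (M.card : ℝ) ^ (θ - δ / 4) := by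
      rw [← Real.rpow_add (by linarith)]; congr 1; ring
    rw [h3, mul_right_comm]
    refine mul_le_mul_of_nonneg_right ?_ (by positivity)
    have h4 : (M.card : ℝ) ^ (δ / 4) ≤ (4 * N) ^ (δ / 4) := Real.rpow_le_rpow (by positivity) hcard (by positivity)
    have h5 : (M.card : ℝ) ^ (δ / 8) ≤ (4 * N) ^ (δ / 8) := Real.rpow_le_rpow (by positivity) hcard (by positivity)
    have h6 : (1 : ℝ) ≤ (4 * N) ^ (δ / 8) := Real.one_le_rpow (by linarith) (by positivity)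
    have hL : (((k + 1) * B : ℕ) : ℝ) ≤ 6 * (4 * N) ^ (δ / 8) * x := by
      push_cast
      calc ((k : ℝ) + 1) * B ≤ (2 * (4 * N) ^ (δ / 8)) * (3 * x) := by
            apply mul_le_mul (by linarith) hB2 (by positivity) (by positivity)
        _ = _ := by ring
    have hLpos : (0 : ℝ) < (((k + 1) * B : ℕ) : ℝ) := by
      push_cast
      have : (0 : ℝ) < B := by linarith
      positivity
    -- `N / L`
    have hNx : (N : ℝ) = (N : ℝ) ^ (1 - α) * x := by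
      rw [hx, hpow]
      simp
    have h7 : (N : ℝ) ^ (1 - α) / (6 * (4 * N) ^ (δ / 8)) ≤ N / (((k + 1) * B : ℕ) : ℝ) := by
      calc (N : ℝ) ^ (1 - α) / (6 * (4 * N) ^ (δ / 8)) = N / (6 * (4 * N) ^ (δ / 8) * x) := by
            rw [div_eq_div_iff (by positivity) (by positivity)]
            nth_rewrite 3 [hNx]
            ring
        _ ≤ _ := div_le_div_of_nonneg_left hN0.le hLpos hL
    have h8 : (N : ℝ) / (((k + 1) * B : ℕ) : ℝ) < ((N / ((k + 1) * B) : ℕ) : ℝ) + 1 :=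
      Nat.lt_floor_add_one ((N : ℝ) / (((k + 1) * B : ℕ) : ℝ)) |>.trans_eq (by rw [Nat.floor_div_eq_div])
    have h9 : (4 * (N : ℝ)) ^ (δ / 8) = 4 ^ (δ / 8) * (N : ℝ) ^ (δ / 8) := Real.mul_rpow (by norm_num) hN0.le
    have h10 : (4 * (N : ℝ)) ^ (δ / 4) = 4 ^ (δ / 4) * (N : ℝ) ^ (δ / 4) := Real.mul_rpow (by norm_num) hN0.le
    -- main comparison
    have h11 : (4 * (N : ℝ)) ^ (δ / 4) * (N : ℝ) ^ (1 - α - δ) * 2 * (6 * (4 * N) ^ (δ / 8)) ≤ (N : ℝ) ^ (1 - α) := by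
      have e5 : (4 : ℝ) ^ (δ / 4) * 4 ^ (δ / 8) = 4 ^ (3 * δ / 8) := by
        rw [← Real.rpow_add (by norm_num)]; congr 1; ring
      have e6 : (N : ℝ) ^ (1 - α) = (N : ℝ) ^ (δ / 4) * (N : ℝ) ^ (1 - α - δ) * (N : ℝ) ^ (δ / 8) *
          ((N : ℝ) ^ (δ / 8) * (N : ℝ) ^ (δ / 2)) := by
        simp only [hpow]; congr 1; ring
      have e7 : (4 * (N : ℝ)) ^ (δ / 4) * (N : ℝ) ^ (1 - α - δ) * 2 * (6 * (4 * N) ^ (δ / 8)) =
          (N : ℝ) ^ (δ / 4) * (N : ℝ) ^ (1 - α - δ) * (N : ℝ) ^ (δ / 8) * (12 * 4 ^ (3 * δ / 8)) := by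
        rw [h9, h10, ← e5]; ring
      rw [e6, e7]
      refine mul_le_mul_of_nonneg_left ?_ (by positivity)
      have e8 : (1 : ℝ) ≤ (N : ℝ) ^ (δ / 2) := Real.one_le_rpow hN1 (by positivity)
      have e9 : (0 : ℝ) < 4 ^ (3 * δ / 8) := by positivity
      calc 12 * (4 : ℝ) ^ (3 * δ / 8) ≤ (N : ℝ) ^ (δ / 8) := by linarith
        _ = (N : ℝ) ^ (δ / 8) * 1 := (mul_one _).symm
        _ ≤ _ := mul_le_mul_of_nonneg_left e8 (by positivity)
    have h12 : (4 * (N : ℝ)) ^ (δ / 4) * (N : ℝ) ^ (1 - α - δ) * 2 ≤ (N : ℝ) ^ (1 - α) / (6 * (4 * N) ^ (δ / 8)) := by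
      rw [le_div_iff₀ (by positivity)]
      exact h11
    have h13 : (1 : ℝ) ≤ (4 * (N : ℝ)) ^ (δ / 4) * (N : ℝ) ^ (1 - α - δ) := by
      have e5 : (1 : ℝ) ≤ (4 * (N : ℝ)) ^ (δ / 4) := Real.one_le_rpow (by linarith) (by positivity)
      have e6 : (1 : ℝ) ≤ (N : ℝ) ^ (1 - α - δ) := Real.one_le_rpow hN1 (by linarith)
      exact one_le_mul_of_one_le_of_one_le e5 e6
    have h14 : (M.card : ℝ) ^ (δ / 4) * (N : ℝ) ^ (1 - α - δ) ≤ (4 * (N : ℝ)) ^ (δ / 4) * (N : ℝ) ^ (1 - α - δ) :=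
      mul_le_mul_of_nonneg_right h4 (by positivity)
    linarith

end Pool.Agent.Helper81.PK
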