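import Mathlib

/-!
Greedy covering of a finite abelian group by few translates of a dense set.
-/

open Finset

namespace Pool.Agent.Helper81.PK

/-- a translate of `A` covers the expected part of `U`. -/
lemma exists_translate {G : Type*} [AddCommGroup G] [Fintype G] [DecidableEq G] (A U : Finset G) :
    ∃ t : G, (A.card : ℝ) * U.card ≤ (Fintype.card G : ℝ) * (U.filter fun u => u - t ∈ A).card := by
  by_contra hcon
  push Not at hcon
  have h1 : ∑ t : G, ((U.filter fun u => u - t ∈ A).card : ℝ) = (A.card : ℝ) * U.card := by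
    have h2 : ∑ t : G, (U.filter fun u => u - t ∈ A).card = ∑ u ∈ U, A.card := by
      simp_rw [card_filter]
      rw [sum_comm]
      refine sum_congr rfl fun u _ => ?_
      rw [← card_filter]
      refine card_bij (fun t _ => u - t) ?_ ?_ ?_
      · intro t ht
        simpa using ht
      · intro t _ t' _ h
        simpa using h
      · intro b hb
        exact ⟨u - b, by simpa using hb, by simp⟩
    have h3 : ∑ t : G, ((U.filter fun u => u - t ∈ A).card : ℝ) = ((∑ u ∈ U, A.card : ℕ) : ℝ) := by
      rw [← h2]; push_cast; rfl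
    rw [h3, sum_const, smul_eq_mul]
    push_cast
    ring
  have hne : (univ : Finset G).Nonempty := ⟨0, mem_univ _⟩
  have h4 : ∑ t : G, (Fintype.card G : ℝ) * ((U.filter fun u => u - t ∈ A).card : ℝ)
      < ∑ _t : G, (A.card : ℝ) * U.card := sum_lt_sum_of_nonempty hne fun t _ => hcon t
  rw [← mul_sum, h1, sum_const, nsmul_eq_mul, card_univ] at h4
  exact lt_irrefl _ h4

lemma exists_cover_aux {G : Type*} [AddCommGroup G] [Fintype G] [DecidableEq G] (A : Finset G)
    (k : ℕ) : ∃ T : Finset G, T.card ≤ k ∧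
      ((univ.filter fun g => ∀ t ∈ T, g - t ∉ A).card : ℝ) ≤
        (1 - (A.card : ℝ) / Fintype.card G) ^ k * Fintype.card G := by
  have hG : (0 : ℝ) < Fintype.card G := by
    exact_mod_cast Fintype.card_pos_iff.2 ⟨(0 : G)⟩
  induction k with
  | zero => exact ⟨∅, by simp, by simp⟩
  | succ k ih =>
    obtain ⟨T, hT, hU⟩ := ih
    obtain ⟨t, ht⟩ := exists_translate A (univ.filter fun g => ∀ t ∈ T, g - t ∉ A)
    set U := univ.filter fun g => ∀ t ∈ T, g - t ∉ A with hUdef
    refine ⟨insert t T, (card_insert_le _ _).trans (by omega), ?_⟩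
    have h1 : (univ.filter fun g => ∀ s ∈ insert t T, g - s ∉ A) = U.filter fun u => ¬ (u - t ∈ A) := by
      ext g
      simp only [mem_filter, mem_univ, true_and, mem_insert, hUdef]
      constructor
      · intro h
        exact ⟨fun s hs => h s (Or.inr hs), h t (Or.inl rfl)⟩
      · rintro ⟨h, h'⟩ s (rfl | hs)
        · exact h'
        · exact h s hs
    rw [h1]
    have h2 : ((U.filter fun u => u - t ∈ A).card : ℝ) + (U.filter fun u => ¬ (u - t ∈ A)).card = U.card := by
      exact_mod_cast card_filter_add_card_filter_not (s := U) (fun u => u - t ∈ A)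
    have h3 : (A.card : ℝ) / Fintype.card G * U.card ≤ (U.filter fun u => u - t ∈ A).card := by
      rw [div_mul_eq_mul_div, div_le_iff₀ hG]
      linarith
    have h4 : ((U.filter fun u => ¬ (u - t ∈ A)).card : ℝ) ≤ (1 - (A.card : ℝ) / Fintype.card G) * U.card := by
      linarith
    have h5 : (0 : ℝ) ≤ 1 - (A.card : ℝ) / Fintype.card G := by
      rw [sub_nonneg, div_le_one hG]
      exact_mod_cast card_le_univ A
    calc _ ≤ (1 - (A.card : ℝ) / Fintype.card G) * U.card := h4
      _ ≤ (1 - (A.card : ℝ) / Fintype.card G) * ((1 - (A.card : ℝ) / Fintype.card G) ^ k * Fintype.card G) :=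
        mul_le_mul_of_nonneg_left hU h5
      _ = _ := by ring

/-- a set of density at least `1 / c` in a finite group has few translates covering the group. -/
lemma exists_cover {G : Type*} [AddCommGroup G] [Fintype G] [DecidableEq G] (A : Finset G)
    (c : ℝ) (hc : 0 < c) (hA : (Fintype.card G : ℝ) ≤ c * A.card) (k : ℕ)
    (hk : c * Real.log (Fintype.card G) < k) :
    ∃ T : Finset G, T.card ≤ k ∧ ∀ g : G, ∃ t ∈ T, g - t ∈ A := by
  have hG : (0 : ℝ) < Fintype.card G := by
    exact_mod_cast Fintype.card_pos_iff.2 ⟨(0 : G)⟩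
  obtain ⟨T, hT, hU⟩ := exists_cover_aux A k
  refine ⟨T, hT, ?_⟩
  by_contra hcon
  push Not at hcon
  obtain ⟨g, hg⟩ := hcon
  have h1 : (1 : ℝ) ≤ ((univ.filter fun g => ∀ t ∈ T, g - t ∉ A).card : ℝ) := by
    have : 0 < (univ.filter fun g => ∀ t ∈ T, g - t ∉ A).card :=
      card_pos.2 ⟨g, by simpa using hg⟩
    exact_mod_cast this
  have h5 : (0 : ℝ) ≤ 1 - (A.card : ℝ) / Fintype.card G := by
    rw [sub_nonneg, div_le_one hG]
    exact_mod_cast card_le_univ A
  have h6 : 1 - (A.card : ℝ) / Fintype.card G ≤ Real.exp (-(1 / c)) := by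
    have h7 : 1 / c ≤ (A.card : ℝ) / Fintype.card G := by
      rw [div_le_div_iff₀ hc hG]
      linarith
    have h8 := Real.add_one_le_exp (-(1 / c))
    linarith
  have h9 : (1 - (A.card : ℝ) / Fintype.card G) ^ k ≤ Real.exp (-(k / c)) := by
    refine (pow_le_pow_left₀ h5 h6 k).trans (le_of_eq ?_)
    rw [← Real.exp_nat_mul]
    congr 1
    ring
  have h10 : Real.exp (-(k / c)) * Fintype.card G < 1 := by
    have h11 : Real.exp (-(k / c)) < Real.exp (-Real.log (Fintype.card G)) := by
      apply Real.exp_lt_exp.2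
      apply neg_lt_neg
      rw [lt_div_iff₀ hc]
      linarith
    rw [Real.exp_neg (Real.log _), Real.exp_log hG] at h11
    calc Real.exp (-(k / c)) * Fintype.card G < (Fintype.card G : ℝ)⁻¹ * Fintype.card G :=
        mul_lt_mul_of_pos_right h11 hG
      _ = 1 := inv_mul_cancel₀ hG.ne'
  have h12 := mul_le_mul_of_nonneg_right h9 hG.le
  linarith

end Pool.Agent.Helper81.PK
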