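import Mathlib

/-!
Definitions: covering `{1, …, N}` by one residue class for each of several moduli near `N^α`.
-/

namespace Pool.Agent.Helper81.PK

/-- the integers `1 ≤ n ≤ N` lying in the chosen class `a m` for at least one modulus `m ∈ M`. -/
def cov (M : Set ℕ) (N : ℕ) (a : (m : ℕ) → ZMod m) : Set ℕ :=
  {n : ℕ | 1 ≤ n ∧ n ≤ N ∧ ∃ m ∈ M, (n : ZMod m) = a m}

/-- all integers `N^α ≤ m < 2 N^α`. -/
def near (α : ℝ) (N : ℕ) : Set ℕ := {m : ℕ | (N : ℝ) ^ α ≤ (m : ℝ) ∧ (m : ℝ) < 2 * (N : ℝ) ^ α}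

/-- all primes `N^α ≤ p < 2 N^α`. -/
def primesNear (α : ℝ) (N : ℕ) : Set ℕ := {p : ℕ | p.Prime ∧ p ∈ near α N}

/-- for every `ε > 0`, all large `N` and every choice `a` of one class for each modulus in `𝓜 N`, at least
`N^(c - ε)` integers of `{1, …, N}` are covered. -/
def Lower (𝓜 : ℕ → Set ℕ) (c : ℝ) : Prop :=
  ∀ ε : ℝ, 0 < ε → ∃ N₀ : ℕ, ∀ N : ℕ, N₀ ≤ N → ∀ a : (m : ℕ) → ZMod m,
    (N : ℝ) ^ (c - ε) ≤ ((cov (𝓜 N) N a).ncard : ℝ)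

/-- arithmetic Kakeya statement with `|D|^η` slices: for every finite set `D` of differences, `|D|` large, and
every choice of the starting points `x d`, one of the sets `{x d + j d : d ∈ D}`, `0 ≤ j ≤ |D|^η`, has at
least `|D|^(θ - ε)` elements. -/
def Kakeya (θ : ℝ) : Prop :=
  ∀ ε : ℝ, 0 < ε → ∀ η : ℝ, 0 < η → ∃ n₀ : ℕ, ∀ (D : Finset ℤ) (x : ℤ → ℤ), n₀ ≤ D.card →
    ∃ j : ℕ, (j : ℝ) ≤ (D.card : ℝ) ^ η ∧
      (D.card : ℝ) ^ (θ - ε) ≤ ((D.image fun d => x d + j * d).card : ℝ)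

lemma cov_subset_Icc (M : Set ℕ) (N : ℕ) (a : (m : ℕ) → ZMod m) : cov M N a ⊆ Finset.Icc 1 N := by
  intro n hn
  rw [Finset.coe_Icc]
  exact ⟨hn.1, hn.2.1⟩

lemma cov_finite (M : Set ℕ) (N : ℕ) (a : (m : ℕ) → ZMod m) : (cov M N a).Finite :=
  (Finset.finite_toSet _).subset (cov_subset_Icc M N a)

lemma cov_mono {M M' : Set ℕ} (h : M ⊆ M') (N : ℕ) (a : (m : ℕ) → ZMod m) :
    (cov M N a).ncard ≤ (cov M' N a).ncard := by
  refine Set.ncard_le_ncard ?_ (cov_finite M' N a)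
  rintro n ⟨h1, h2, m, hm, h3⟩
  exact ⟨h1, h2, m, h hm, h3⟩

end Pool.Agent.Helper81.PK
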