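import Mathlib

/-!
Dilations modulo a large prime `Q` followed by `x ↦ ⌊x q / Q⌋`: almost additive maps `ℤ → ℤ/q` which
are nearly injective on a given set of at most `q` integers.
-/

open Finset

namespace Pool.Agent.Helper81.PK

/-- `⌊((l x) mod Q) q / Q⌋` -/
def dil (Q q l x : ℤ) : ℤ := (l * x) % Q * q / Q

lemma dil_nonneg {Q q l x : ℤ} (hQ : 0 < Q) (hq : 0 < q) : 0 ≤ dil Q q l x := by
  unfold dil
  exact Int.ediv_nonneg (mul_nonneg (Int.emod_nonneg _ hQ.ne') hq.le) hQ.le

lemma dil_lt {Q q l x : ℤ} (hQ : 0 < Q) (hq : 0 < q) : dil Q q l x < q := by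
  unfold dil
  rw [Int.ediv_lt_iff_lt_mul hQ, mul_comm q Q]
  exact mul_lt_mul_of_pos_right (Int.emod_lt_of_pos _ hQ) hq

lemma ediv_add_cases {Q : ℤ} (hQ : 0 < Q) (u v : ℤ) :
    (u + v) / Q = u / Q + v / Q ∨ (u + v) / Q = u / Q + v / Q + 1 := by
  have hu := Int.emod_add_mul_ediv u Q
  have hv := Int.emod_add_mul_ediv v Q
  have hu0 := Int.emod_nonneg u hQ.ne'
  have hv0 := Int.emod_nonneg v hQ.ne'
  have hu1 := Int.emod_lt_of_pos u hQ
  have hv1 := Int.emod_lt_of_pos v hQ
  by_cases h : u % Q + v % Q < Q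
  · left
    rw [Int.ediv_eq_iff_of_pos hQ]
    constructor <;> nlinarith
  · right
    rw [Int.ediv_eq_iff_of_pos hQ]
    push Not at h
    constructor <;> nlinarith

/-- the map is additive up to an error `0` or `1`. -/
lemma dil_add {Q q : ℤ} (hQ : 0 < Q) (l x y : ℤ) :
    ∃ e : ℤ, 0 ≤ e ∧ e ≤ 1 ∧ q ∣ dil Q q l (x + y) - (dil Q q l x + dil Q q l y + e) := by
  have hu0 := Int.emod_nonneg (l * x) hQ.ne'
  have hv0 := Int.emod_nonneg (l * y) hQ.ne'
  have hu1 := Int.emod_lt_of_pos (l * x) hQ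
  have hv1 := Int.emod_lt_of_pos (l * y) hQ
  have h0 : (l * (x + y)) % Q = ((l * x) % Q + (l * y) % Q) % Q := by
    rw [mul_add, Int.add_emod]
  have h1 : (l * (x + y)) % Q = (l * x) % Q + (l * y) % Q ∨
      (l * (x + y)) % Q = (l * x) % Q + (l * y) % Q - Q := by
    rw [h0]
    by_cases h : (l * x) % Q + (l * y) % Q < Q
    · left
      exact Int.emod_eq_of_lt (by linarith) h
    · right
      push Not at h
      rw [← Int.emod_eq_of_lt (a := (l * x) % Q + (l * y) % Q - Q) (b := Q) (by linarith) (by linarith)]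
      rw [Int.sub_emod_right]
  have h2 : ((l * x) % Q * q + (l * y) % Q * q) / Q = (l * x) % Q * q / Q + (l * y) % Q * q / Q ∨
      ((l * x) % Q * q + (l * y) % Q * q) / Q = (l * x) % Q * q / Q + (l * y) % Q * q / Q + 1 :=
    ediv_add_cases hQ _ _
  unfold dil
  rcases h1 with h1 | h1 <;> rw [h1]
  · rw [add_mul]
    rcases h2 with h2 | h2 <;> rw [h2]
    · exact ⟨0, le_refl _, by norm_num, ⟨0, by ring⟩⟩
    · exact ⟨1, by norm_num, le_refl _, ⟨0, by ring⟩⟩
  · have h3 : (l * x % Q + l * y % Q - Q) * q / Q = ((l * x) % Q * q + (l * y) % Q * q) / Q - q := by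
      have : (l * x % Q + l * y % Q - Q) * q = ((l * x) % Q * q + (l * y) % Q * q) - q * Q := by ring
      rw [this, Int.sub_mul_ediv_right _ _ hQ.ne']
    rw [h3]
    rcases h2 with h2 | h2 <;> rw [h2]
    · exact ⟨0, le_refl _, by norm_num, ⟨-1, by ring⟩⟩
    · exact ⟨1, by norm_num, le_refl _, ⟨-1, by ring⟩⟩

/-- progressions are mapped to progressions up to errors at most `j`. -/
lemma dil_progression {Q q : ℤ} (hQ : 0 < Q) (l x d : ℤ) (j : ℕ) :
    ∃ e : ℕ, e ≤ j ∧ q ∣ dil Q q l (x + j * d) - (dil Q q l x + j * dil Q q l d + e) := by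
  induction j with
  | zero => exact ⟨0, le_refl _, by simp⟩
  | succ j ih =>
    obtain ⟨e, he, h1⟩ := ih
    obtain ⟨e', h0, h1', h2⟩ := dil_add (q := q) hQ l (x + j * d) d
    refine ⟨e + e'.toNat, by omega, ?_⟩
    have h3 : (x + ((j + 1 : ℕ) : ℤ) * d) = x + j * d + d := by push_cast; ring
    rw [h3]
    have h4 : ((e + e'.toNat : ℕ) : ℤ) = e + e' := by push_cast; omega
    rw [h4]
    have h5 := dvd_add h1 h2
    have h6 : dil Q q l (x + j * d + d) - (dil Q q l x + ((j + 1 : ℕ) : ℤ) * dil Q q l d + (e + e')) =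
        dil Q q l (x + j * d) - (dil Q q l x + j * dil Q q l d + e) +
        (dil Q q l (x + j * d + d) - (dil Q q l (x + j * d) + dil Q q l d + e')) := by
      push_cast
      ring
    rw [h6]
    exact h5

/-- few dilations identify two given integers. -/
lemma card_collide {Q q : ℕ} (hQ : Q.Prime) (hq : 0 < q) {d d' : ℤ} (hd : ¬ (Q : ℤ) ∣ d - d') :
    ((Ico 1 Q).filter fun l : ℕ => dil Q q l d = dil Q q l d').card * q ≤ 2 * Q := by
  classical
  have : Fact Q.Prime := ⟨hQ⟩
  have hQ0 : (0 : ℤ) < Q := by exact_mod_cast hQ.pos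
  have hq0 : (0 : ℤ) < q := by exact_mod_cast hq
  -- the residues
  have key : ∀ l ∈ (Ico 1 Q).filter fun l : ℕ => dil Q q l d = dil Q q l d',
      ((l * (d - d')) % Q * q < Q ∨ (Q - (l * (d - d')) % Q) * q < Q) := by
    intro l hl
    rw [mem_filter] at hl
    have hl2 := hl.2
    unfold dil at hl2
    have hu0 := Int.emod_nonneg (l * d) hQ0.ne'
    have hv0 := Int.emod_nonneg (l * d') hQ0.ne'
    have hu1 := Int.emod_lt_of_pos (l * d) hQ0
    have hv1 := Int.emod_lt_of_pos (l * d') hQ0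
    have e1 := Int.emod_add_mul_ediv ((l * d) % Q * q) Q
    have e2 := Int.emod_add_mul_ediv ((l * d') % Q * q) Q
    have e3 := Int.emod_nonneg ((l * d) % Q * q) hQ0.ne'
    have e4 := Int.emod_nonneg ((l * d') % Q * q) hQ0.ne'
    have e5 := Int.emod_lt_of_pos ((l * d) % Q * q) hQ0
    have e6 := Int.emod_lt_of_pos ((l * d') % Q * q) hQ0
    rw [hl2] at e1
    have h7 : (l * (d - d')) % Q = ((l * d) % Q - (l * d') % Q) % Q := by
      rw [mul_sub, Int.sub_emod]
    by_cases h : (l * d') % Q ≤ (l * d) % Q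
    · left
      rw [h7, Int.emod_eq_of_lt (by linarith) (by linarith)]
      nlinarith
    · push Not at h
      right
      have h8 : ((l * d) % Q - (l * d') % Q) % Q = (l * d) % Q - (l * d') % Q + Q := by
        rw [← Int.add_emod_right]
        exact Int.emod_eq_of_lt (by linarith) (by linarith)
      rw [h7, h8]
      nlinarith
  -- the injection into a small set
  set B : Finset ℤ := (Ico (0 : ℤ) Q).filter fun w => w ≠ 0 ∧ (w * q < Q ∨ (Q - w) * q < Q) with hB
  have hcard : ((Ico 1 Q).filter fun l : ℕ => dil Q q l d = dil Q q l d').card ≤ B.card := by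
    apply card_le_card_of_injOn (fun l : ℕ => (l * (d - d')) % Q)
    · intro l hl
      have hl' := key l hl
      rw [mem_coe, mem_filter, mem_Ico] at hl
      simp only [hB, coe_filter, mem_Ico, Set.mem_ofPred_eq]
      refine ⟨⟨Int.emod_nonneg _ hQ0.ne', Int.emod_lt_of_pos _ hQ0⟩, ?_, hl'⟩
      intro h0
      have h1 : (Q : ℤ) ∣ l * (d - d') := Int.dvd_of_emod_eq_zero h0
      rcases (Int.Prime.dvd_mul' hQ h1) with h2 | h2
      · have h3 : Q ∣ l := by exact_mod_cast h2
        have := Nat.le_of_dvd (by omega) h3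
        omega
      · exact hd h2
    · intro l hl l' hl' h
      rw [mem_coe, mem_filter, mem_Ico] at hl hl'
      have h1 : (Q : ℤ) ∣ (l * (d - d')) - (l' * (d - d')) := by
        exact Int.ModEq.dvd (show (l' * (d - d')) ≡ (l * (d - d')) [ZMOD Q] from h.symm)
      rw [← sub_mul] at h1
      rcases (Int.Prime.dvd_mul' hQ h1) with h2 | h2
      · have h3 := Int.eq_zero_of_abs_lt_dvd h2 (by rw [abs_lt]; constructor <;> omega)
        omega
      · exact absurd h2 hd
  have hB2 : B.card * q ≤ 2 * Q := by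
    have h1 : B ⊆ (Ico (1 : ℤ) (Q / q + 1)) ∪ (Ico ((Q : ℤ) - Q / q) Q) := by
      intro w hw
      rw [hB, mem_filter, mem_Ico] at hw
      obtain ⟨⟨hw0, hw1⟩, hw2, hw3⟩ := hw
      rw [mem_union, mem_Ico, mem_Ico]
      rcases hw3 with hw3 | hw3
      · left
        refine ⟨by omega, ?_⟩
        have : w ≤ (Q : ℤ) / q := by
          rw [Int.le_ediv_iff_mul_le hq0]
          exact hw3.le
        omega
      · right
        refine ⟨?_, hw1⟩
        have : (Q : ℤ) - w ≤ (Q : ℤ) / q := by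
          rw [Int.le_ediv_iff_mul_le hq0]
          exact hw3.le
        omega
    have h2 := card_le_card h1
    have h3 := h2.trans (card_union_le _ _)
    rw [Int.card_Ico, Int.card_Ico] at h3
    have h4 : B.card ≤ 2 * (Q / q) := by
      have : ((Q : ℤ) / q) = ((Q / q : ℕ) : ℤ) := by push_cast; rfl
      rw [this] at h3
      omega
    calc B.card * q ≤ 2 * (Q / q) * q := Nat.mul_le_mul_right _ h4
      _ = 2 * (Q / q * q) := by ring
      _ ≤ 2 * Q := Nat.mul_le_mul_left _ (Nat.div_mul_le_self Q q)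
  exact (Nat.mul_le_mul_right _ hcard).trans hB2

/-- for every finite set `D` of integers and every `q ≥ |D|` there is a dilation with at least `|D| / 5`
different values on `D`. -/
lemma exists_dil (D : Finset ℤ) (q : ℕ) (hq : D.card ≤ q) (hD : D.Nonempty) :
    ∃ (Q l : ℤ), 0 < Q ∧ D.card ≤ 5 * (D.image (dil Q q l)).card := by
  classical
  have hn : 0 < D.card := card_pos.2 hD
  have hq0 : 0 < q := by omega
  -- a large prime
  obtain ⟨M, hM⟩ : ∃ M : ℕ, ∀ d ∈ D, ∀ d' ∈ D, |d - d'| < M := by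
    refine ⟨(∑ d ∈ D, ∑ d' ∈ D, |d - d'|).toNat + 1, fun d hd d' hd' => ?_⟩
    have h1 : |d - d'| ≤ ∑ d' ∈ D, |d - d'| :=
      single_le_sum (f := fun d' => |d - d'|) (fun _ _ => abs_nonneg _) hd'
    have h2 : ∑ d' ∈ D, |d - d'| ≤ ∑ d ∈ D, ∑ d' ∈ D, |d - d'| :=
      single_le_sum (f := fun d => ∑ d' ∈ D, |d - d'|) (fun _ _ => sum_nonneg fun _ _ => abs_nonneg _) hd
    have h3 := Int.self_le_toNat (∑ d ∈ D, ∑ d' ∈ D, |d - d'|)
    push_cast
    linarith
  obtain ⟨Q, hQM, hQ⟩ := Nat.exists_infinite_primes (M + 3)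
  have hQ3 : 3 ≤ Q := by omega
  have hnd : ∀ d ∈ D, ∀ d' ∈ D, d ≠ d' → ¬ (Q : ℤ) ∣ d - d' := by
    intro d hd d' hd' hne hdvd
    have h1 := Int.eq_zero_of_abs_lt_dvd hdvd (lt_of_lt_of_le (hM d hd d' hd') (by exact_mod_cast (by omega : M ≤ Q)))
    exact hne (by linarith)
  -- average over the dilations
  have havg : ∑ l ∈ Ico 1 Q, (((D ×ˢ D).filter fun z => z.1 ≠ z.2 ∧ dil Q q l z.1 = dil Q q l z.2).card * q) ≤
      D.card * D.card * (2 * Q) := by
    rw [← sum_mul]
    have h1 : ∑ l ∈ Ico 1 Q, ((D ×ˢ D).filter fun z => z.1 ≠ z.2 ∧ dil Q q l z.1 = dil Q q l z.2).card =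
        ∑ z ∈ (D ×ˢ D).filter (fun z => z.1 ≠ z.2), ((Ico 1 Q).filter fun l : ℕ => dil Q q l z.1 = dil Q q l z.2).card := by
      simp_rw [card_filter]
      rw [sum_comm]
      rw [sum_filter]
      refine sum_congr rfl fun z _ => ?_
      by_cases h : z.1 ≠ z.2
      · simp [h]
      · simp [h]
    rw [h1, sum_mul]
    calc ∑ z ∈ (D ×ˢ D).filter (fun z => z.1 ≠ z.2), ((Ico 1 Q).filter fun l : ℕ => dil Q q l z.1 = dil Q q l z.2).card * q
        ≤ ∑ z ∈ (D ×ˢ D).filter (fun z => z.1 ≠ z.2), 2 * Q := by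
          refine sum_le_sum fun z hz => ?_
          rw [mem_filter, mem_product] at hz
          exact card_collide hQ hq0 (hnd _ hz.1.1 _ hz.1.2 hz.2)
      _ = ((D ×ˢ D).filter (fun z => z.1 ≠ z.2)).card * (2 * Q) := by rw [sum_const, smul_eq_mul]
      _ ≤ D.card * D.card * (2 * Q) := by
          refine Nat.mul_le_mul_right _ ?_
          rw [← card_product]
          exact card_filter_le _ _
  obtain ⟨l, hl, hcol⟩ : ∃ l ∈ Ico 1 Q, ((D ×ˢ D).filter fun z => z.1 ≠ z.2 ∧ dil Q q l z.1 = dil Q q l z.2).card * q ≤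
      D.card * D.card * 4 - 0 := by
    by_contra hcon
    push Not at hcon
    have h1 : ∑ _l ∈ Ico 1 Q, (D.card * D.card * 4) <
        ∑ l ∈ Ico 1 Q, (((D ×ˢ D).filter fun z => z.1 ≠ z.2 ∧ dil Q q l z.1 = dil Q q l z.2).card * q) := by
      refine sum_lt_sum_of_nonempty ⟨1, by rw [mem_Ico]; omega⟩ fun l hl => ?_
      have := hcon l hl
      simpa using this
    rw [sum_const, smul_eq_mul, Nat.card_Ico] at h1
    have h2 := h1.trans_le havg
    have h3 : D.card * D.card * (2 * Q) ≤ (Q - 1) * (D.card * D.card * 4) := by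
      obtain ⟨Q', rfl⟩ : ∃ Q', Q = Q' + 2 := ⟨Q - 2, by omega⟩
      simp only [show Q' + 2 - 1 = Q' + 1 by omega]
      nlinarith [Nat.zero_le (D.card * D.card), Nat.zero_le (D.card * D.card * Q')]
    omega
  refine ⟨Q, l, by exact_mod_cast hQ.pos, ?_⟩
  have hcol2 : ((D ×ˢ D).filter fun z => z.1 ≠ z.2 ∧ dil Q q l z.1 = dil Q q l z.2).card ≤ 4 * D.card := by
    have h1 : ((D ×ˢ D).filter fun z => z.1 ≠ z.2 ∧ dil Q q l z.1 = dil Q q l z.2).card * D.card ≤
        4 * D.card * D.card := by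
      refine (Nat.mul_le_mul_left _ hq).trans (hcol.trans (le_of_eq ?_))
      rw [Nat.sub_zero]; ring
    exact Nat.le_of_mul_le_mul_right h1 hn
  set f := dil Q q l with hf
  have h1 : D.card = ∑ v ∈ D.image f, (D.filter fun d => f d = v).card :=
    card_eq_sum_card_image f D
  have h2 : (∑ v ∈ D.image f, (D.filter fun d => f d = v).card) ^ 2 ≤
      (D.image f).card * ∑ v ∈ D.image f, (D.filter fun d => f d = v).card ^ 2 :=
    sq_sum_le_card_mul_sum_sq
  have h3 : ∑ v ∈ D.image f, (D.filter fun d => f d = v).card ^ 2 =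
      ((D ×ˢ D).filter fun z => f z.1 = f z.2).card := by
    rw [card_eq_sum_card_fiberwise (f := fun z : ℤ × ℤ => f z.1) (t := D.image f)
      (s := (D ×ˢ D).filter fun z => f z.1 = f z.2)]
    · refine sum_congr rfl fun v _ => ?_
      rw [sq, ← card_product]
      congr 1
      ext z
      simp only [mem_product, mem_filter]
      constructor
      · rintro ⟨⟨a, b⟩, c, d⟩
        exact ⟨⟨⟨a, c⟩, b.trans d.symm⟩, b⟩
      · rintro ⟨⟨⟨a, b⟩, c⟩, d⟩
        exact ⟨⟨a, d⟩, b, c.symm.trans d⟩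
    · intro z hz
      have hz' : z.1 ∈ D := by
        have := (mem_filter.1 hz).1
        exact (mem_product.1 this).1
      exact mem_coe.2 (mem_image_of_mem _ hz')
  have h4 : ((D ×ˢ D).filter fun z => f z.1 = f z.2).card ≤ 5 * D.card := by
    have h5 : ((D ×ˢ D).filter fun z => f z.1 = f z.2) ⊆
        (D.image fun d => (d, d)) ∪ (D ×ˢ D).filter fun z => z.1 ≠ z.2 ∧ f z.1 = f z.2 := by
      intro z hz
      rw [mem_filter, mem_product] at hz
      rw [mem_union, mem_image, mem_filter, mem_product]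
      by_cases h : z.1 = z.2
      · left
        exact ⟨z.1, hz.1.1, by ext <;> simp [h]⟩
      · right
        exact ⟨hz.1, h, hz.2⟩
    have h6 := (card_le_card h5).trans (card_union_le _ _)
    have h7 : (D.image fun d => (d, d)).card ≤ D.card := card_image_le
    omega
  rw [← h1, h3] at h2
  have h8 : D.card * D.card ≤ (5 * (D.image f).card) * D.card := by
    calc D.card * D.card = D.card ^ 2 := by ring
      _ ≤ _ := h2
      _ ≤ (D.image f).card * (5 * D.card) := Nat.mul_le_mul_left _ h4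
      _ = _ := by ring
  exact Nat.le_of_mul_le_mul_right h8 hn

end Pool.Agent.Helper81.PK
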