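import Pool.Agent.Helper81.PK.Defs
import Pool.Agent.Helper81.PK.Cover
import Pool.Agent.Helper81.PK.Dilate

/-!
From a finite set of differences with small slices to choices of residue classes for ALL integers in a
dyadic interval.
-/

open Finset

namespace Pool.Agent.Helper81.PK

lemma card_of_residues {q N : ℕ} (A : Finset (ZMod q)) (s : Set ℕ)
    (h : ∀ n ∈ s, n ≤ N ∧ (n : ZMod q) ∈ A) : s.ncard ≤ (N / q + 1) * A.card := by
  classical
  have h1 : s.ncard ≤ ((A ×ˢ range (N / q + 1) : Finset (ZMod q × ℕ)) : Set (ZMod q × ℕ)).ncard := by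
    apply Set.ncard_le_ncard_of_injOn (fun n : ℕ => ((n : ZMod q), n / q))
    · intro n hn
      obtain ⟨h2, h3⟩ := h n hn
      rw [mem_coe, mem_product, mem_range]
      exact ⟨h3, Nat.lt_succ_of_le (Nat.div_le_div_right h2)⟩
    · intro n _ n' _ h2
      rw [Prod.mk.injEq] at h2
      have h3 : n % q = n' % q := (ZMod.natCast_eq_natCast_iff' n n' q).1 h2.1
      rw [← Nat.div_add_mod n q, ← Nat.div_add_mod n' q, h3, h2.2]
  rw [Set.ncard_coe_finset, card_product, card_range] at h1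
  rw [mul_comm]
  exact h1

/-- the finite transfer. -/
lemma transfer (D : Finset ℤ) (x : ℤ → ℤ) (hD : D.Nonempty) (q J k N : ℕ) (hq : D.card ≤ q)
    (hq2 : q ≤ 2 * D.card) (B : ℕ) (hB : ∀ j ≤ J, (D.image fun d => x d + j * d).card ≤ B)
    (hk : 10 * Real.log q < k) (M : Set ℕ) (hM : ∀ m ∈ M, N + q ≤ m * J) :
    ∃ a : (m : ℕ) → ZMod m, (cov M N a).ncard ≤ (N / q + 1) * ((J + 1) * (J + 1) * k * B) := by
  classical
  have hn : 0 < D.card := card_pos.2 hD
  have hq0 : 0 < q := by omega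
  have hq0' : (0 : ℤ) < q := by exact_mod_cast hq0
  have : NeZero q := ⟨hq0.ne'⟩
  obtain ⟨Q, l, hQ, hcard⟩ := exists_dil D q hq hD
  set f : ℤ → ℤ := dil Q q l with hf
  -- the set of the differences modulo `q`
  set D' : Finset (ZMod q) := (D.image f).image (fun v : ℤ => (v : ZMod q)) with hD'
  have hD'c : D'.card = (D.image f).card := by
    apply card_image_of_injOn
    intro v hv w hw h
    rw [mem_coe, mem_image] at hv hw
    obtain ⟨d, _, rfl⟩ := hv
    obtain ⟨d', _, rfl⟩ := hw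
    have h1 : (q : ℤ) ∣ f d - f d' := by
      have := (ZMod.intCast_eq_intCast_iff_dvd_sub (f d') (f d) q).1 h.symm
      exact this
    have h2 := Int.eq_zero_of_abs_lt_dvd h1 (by
      have a1 := dil_nonneg (l := l) (x := d) hQ hq0'
      have a2 := dil_nonneg (l := l) (x := d') hQ hq0'
      have a3 := dil_lt (l := l) (x := d) hQ hq0'
      have a4 := dil_lt (l := l) (x := d') hQ hq0'
      rw [abs_lt]
      constructor <;> linarith)
    linarith
  obtain ⟨T, hT, hcov⟩ := exists_cover D' 10 (by norm_num) (by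
    rw [ZMod.card, hD'c]
    exact_mod_cast (by omega : q ≤ 10 * (D.image f).card)) k (by rw [ZMod.card]; exact hk)
  -- the choice
  have hch : ∀ m : ℕ, ∃ d ∈ D, ∃ t ∈ T, (m : ZMod q) = (f d : ZMod q) + t := by
    intro m
    obtain ⟨t, ht, h⟩ := hcov (m : ZMod q)
    rw [hD', mem_image] at h
    obtain ⟨v, hv, h⟩ := h
    rw [mem_image] at hv
    obtain ⟨d, hd, rfl⟩ := hv
    exact ⟨d, hd, t, ht, by rw [h]; ring⟩
  choose d hd t ht hdt using hch
  refine ⟨fun m => ((f (x (d m)) - q : ℤ) : ZMod m), ?_⟩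
  set A : Finset (ZMod q) := (range (J + 1)).biUnion fun j => (range (J + 1)).biUnion fun e =>
    T.biUnion fun t => (D.image fun d => x d + j * d).image (fun y : ℤ => (f y : ZMod q) - e + j * t) with hA
  have hAc : A.card ≤ (J + 1) * (J + 1) * k * B := by
    rw [hA]
    refine (card_biUnion_le_card_mul _ _ ((J + 1) * (k * B)) fun j hj => ?_).trans (le_of_eq (by
      rw [card_range]; ring))
    refine (card_biUnion_le_card_mul _ _ (k * B) fun e _ => ?_).trans (le_of_eq (by rw [card_range]))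
    refine (card_biUnion_le_card_mul _ _ B fun t _ => ?_).trans (Nat.mul_le_mul_right _ hT)
    exact card_image_le.trans (hB j (by rw [mem_range] at hj; omega))
  refine (card_of_residues A _ ?_).trans (Nat.mul_le_mul_left _ hAc)
  rintro n ⟨hn1, hnN, m, hm, hnm⟩
  refine ⟨hnN, ?_⟩
  have h1 : (m : ℤ) ∣ (n : ℤ) - (f (x (d m)) - q) := by
    have h2 : (((f (x (d m)) - q : ℤ)) : ZMod m) = ((n : ℤ) : ZMod m) := by
      rw [Int.cast_natCast]; exact hnm.symm
    exact (ZMod.intCast_eq_intCast_iff_dvd_sub _ _ _).1 h2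
  obtain ⟨c, hc⟩ := h1
  have hb0 := dil_nonneg (l := l) (x := x (d m)) hQ hq0'
  have hb1 := dil_lt (l := l) (x := x (d m)) hQ hq0'
  rw [← hf] at hb0 hb1
  have hm0 : 0 < m := by
    rcases Nat.eq_zero_or_pos m with h0 | h0
    · have := hM m hm
      rw [h0] at this
      omega
    · exact h0
  have hm0' : (0 : ℤ) < m := by exact_mod_cast hm0
  have hc0 : 0 ≤ c := by
    by_contra hneg
    push Not at hneg
    have : (m : ℤ) * c < 0 := mul_neg_of_pos_of_neg hm0' hneg
    have h3 : (1 : ℤ) ≤ n := by exact_mod_cast hn1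
    linarith
  have hcJ : c ≤ J := by
    have h3 : (m : ℤ) * c ≤ m * J := by
      have h4 : ((N + q : ℕ) : ℤ) ≤ ((m * J : ℕ) : ℤ) := by exact_mod_cast hM m hm
      push_cast at h4
      have h5 : (n : ℤ) ≤ N := by exact_mod_cast hnN
      linarith
    exact le_of_mul_le_mul_left h3 hm0'
  obtain ⟨j, rfl⟩ : ∃ j : ℕ, c = j := ⟨c.toNat, by omega⟩
  have hjJ : j ≤ J := by exact_mod_cast hcJ
  obtain ⟨e, he, hdvd⟩ := dil_progression (q := (q : ℤ)) hQ l (x (d m)) (d m) j
  rw [← hf] at hdvd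
  have h6 : (n : ZMod q) = (f (x (d m) + j * d m) : ZMod q) - e + j * t m := by
    have h7 : ((f (x (d m)) + j * f (d m) + e : ℤ) : ZMod q) = (f (x (d m) + j * d m) : ZMod q) :=
      (ZMod.intCast_eq_intCast_iff_dvd_sub _ _ _).2 hdvd
    have h8 : ((n : ℤ) : ZMod q) = ((f (x (d m)) - q + m * j : ℤ) : ZMod q) := by
      congr 1
      linarith
    rw [Int.cast_natCast] at h8
    rw [h8, ← h7]
    push_cast
    rw [hdt m, ZMod.natCast_self]
    ring
  rw [hA, mem_biUnion]
  refine ⟨j, by rw [mem_range]; omega, ?_⟩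
  rw [mem_biUnion]
  refine ⟨e, by rw [mem_range]; omega, ?_⟩
  rw [mem_biUnion]
  refine ⟨t m, ht m, ?_⟩
  rw [mem_image]
  exact ⟨x (d m) + j * d m, mem_image.2 ⟨d m, hd m, rfl⟩, h6.symm⟩

end Pool.Agent.Helper81.PK
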