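import Pool.Agent.Helper81.PK.Down

/-!
Asymptotic form: lower bounds for all integer moduli, `α → 1`, imply the Kakeya statement with `|D|^η` slices.
-/

open Finset Filter Topology

namespace Pool.Agent.Helper81.PK

lemma kakeya_of_near (θ : ℝ) (h1 : θ ≤ 1)
    (h : ∀ c : ℝ, c < θ → ∀ α₀ : ℝ, α₀ < 1 → ∃ α : ℝ, α₀ < α ∧ α < 1 ∧ Lower (near α) c) :
    Kakeya θ := by
  classical
  intro ε hε η hη
  by_cases hθε : θ ≤ ε
  · refine ⟨1, fun D x hn => ⟨0, ?_, ?_⟩⟩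
    · rw [Nat.cast_zero]
      positivity
    · have hDc : 0 < D.card := hn
      have e1 : (D.card : ℝ) ^ (θ - ε) ≤ 1 :=
        Real.rpow_le_one_of_one_le_of_nonpos (by exact_mod_cast hn) (by linarith)
      have e2 : 0 < (D.image fun d => x d + (0 : ℕ) * d).card := card_pos.2 ((card_pos.1 hDc).image _)
      have e3 : (1 : ℝ) ≤ ((D.image fun d => x d + (0 : ℕ) * d).card : ℝ) := by exact_mod_cast e2
      exact e1.trans e3
  push Not at hθε
  obtain ⟨δ, hδ0, hδη, hδε⟩ : ∃ δ : ℝ, 0 < δ ∧ δ ≤ η ∧ 16 * δ ≤ ε :=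
    ⟨min η (ε / 16), by positivity, min_le_left _ _, by
      have := min_le_right η (ε / 16)
      linarith⟩
  obtain ⟨α, hα, hα1, hL⟩ := h (θ - δ) (by linarith) (max (1 / 2) (1 / (1 + δ / 4)))
    (max_lt (by norm_num) (by rw [div_lt_one (by positivity)]; linarith))
  have hα2 : 1 / 2 < α := (le_max_left _ _).trans_lt hα
  have hα3 : 1 / (1 + δ / 4) < α := (le_max_right _ _).trans_lt hα
  have hα0 : 0 < α := by linarith
  have hinv : 1 / α < 1 + δ / 4 := by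
    rw [div_lt_iff₀ (by positivity)] at hα3
    rw [div_lt_iff₀ hα0]
    linarith
  have hinv1 : 1 < 1 / α := by
    rw [lt_div_iff₀ hα0]
    linarith
  obtain ⟨N₀, hN₀⟩ := hL δ hδ0
  -- the eventual inequalities
  have ev1 : ∀ᶠ n : ℝ in atTop, 5 + 2 * n ^ (δ / 4) ≤ n ^ δ := by
    have t1 : Tendsto (fun n : ℝ => n ^ (δ / 4)) atTop atTop := tendsto_rpow_atTop (by positivity)
    filter_upwards [t1.eventually_ge_atTop 4, eventually_ge_atTop (1 : ℝ)] with n hn hn1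
    have : n ^ δ = (n ^ (δ / 4)) ^ (4 : ℕ) := by
      rw [← Real.rpow_natCast, ← Real.rpow_mul (by linarith)]
      congr 1
      push_cast
      ring
    rw [this]
    nlinarith [sq_nonneg ((n ^ (δ / 4)) ^ 2), sq_nonneg (n ^ (δ / 4) - 4)]
  have ev2 : ∀ᶠ n : ℝ in atTop, 10 * Real.log (2 * n) + 1 < n ^ δ := by
    have t1 := (isLittleO_log_rpow_atTop hδ0).bound (show (0 : ℝ) < 1 / 20 by norm_num)
    have t2 : Tendsto (fun n : ℝ => n ^ δ) atTop atTop := tendsto_rpow_atTop hδ0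
    filter_upwards [t1, t2.eventually_gt_atTop 40, eventually_ge_atTop (1 : ℝ)] with n hn hn1 hn2
    rw [Real.norm_of_nonneg (Real.log_nonneg hn2), Real.norm_of_nonneg (by positivity)] at hn
    rw [Real.log_mul (by norm_num) (by linarith)]
    have := Real.log_two_lt_d9
    linarith
  have ev3 : ∀ᶠ n : ℝ in atTop, 16 < n ^ (10 * δ) :=
    (tendsto_rpow_atTop (by positivity)).eventually_gt_atTop 16
  obtain ⟨n₀, hn₀⟩ := eventually_atTop.1 (((ev1.and ev2).and ev3).and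
    (eventually_ge_atTop (4 + 4 * (N₀ : ℝ))))
  refine ⟨⌈n₀⌉₊ + 4, fun D x hD => ?_⟩
  have hnr : n₀ ≤ (D.card : ℝ) := by
    have h2 : ⌈n₀⌉₊ ≤ D.card := by omega
    exact (Nat.le_ceil n₀).trans (by exact_mod_cast h2)
  obtain ⟨⟨⟨e1, e2⟩, e3⟩, e4⟩ := hn₀ _ hnr
  obtain ⟨n, hn⟩ : ∃ n : ℝ, n = (D.card : ℝ) := ⟨_, rfl⟩
  rw [← hn] at e1 e2 e3 e4 ⊢
  have hn1 : (1 : ℝ) ≤ n := by
    have : (0 : ℝ) ≤ N₀ := Nat.cast_nonneg _
    linarith
  have hn4 : (4 : ℝ) ≤ n := by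
    have : (0 : ℝ) ≤ N₀ := Nat.cast_nonneg _
    linarith
  by_contra hcon
  push Not at hcon
  obtain ⟨q, hqp, hq1, hq2⟩ := Nat.exists_prime_lt_and_le_two_mul D.card (by omega)
  have hq1r : n < q := by rw [hn]; exact_mod_cast hq1
  have hq2r : (q : ℝ) ≤ 2 * n := by rw [hn]; exact_mod_cast hq2
  obtain ⟨Y, hY⟩ : ∃ Y : ℝ, Y = q / 2 := ⟨_, rfl⟩
  have hYn : Y ≤ n := by rw [hY]; linarith
  have hY2 : n / 2 < Y := by rw [hY]; linarith
  have hY1 : 2 ≤ Y := by linarith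
  have hYp : Y ≤ Y ^ (1 / α) := by
    calc Y = Y ^ (1 : ℝ) := (Real.rpow_one _).symm
      _ ≤ _ := Real.rpow_le_rpow_of_exponent_le (by linarith) hinv1.le
  obtain ⟨N, hN⟩ : ∃ N : ℕ, N = ⌊Y ^ (1 / α)⌋₊ := ⟨_, rfl⟩
  have hNle : (N : ℝ) ≤ Y ^ (1 / α) := by rw [hN]; exact Nat.floor_le (by positivity)
  have hNge : Y ^ (1 / α) / 2 ≤ N := by
    have : Y ^ (1 / α) < N + 1 := by rw [hN]; exact Nat.lt_floor_add_one _
    linarith
  have hN4 : n / 4 ≤ N := by linarith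
  have hNN : N₀ ≤ N := by
    have : (N₀ : ℝ) ≤ N := by linarith
    exact_mod_cast this
  obtain ⟨J, hJ⟩ : ∃ J : ℕ, J = ⌊n ^ δ⌋₊ := ⟨_, rfl⟩
  have hJle : (J : ℝ) ≤ n ^ δ := by rw [hJ]; exact Nat.floor_le (by positivity)
  have hJge : n ^ δ < J + 1 := by rw [hJ]; exact Nat.lt_floor_add_one _
  -- `N / q`
  have hNq : (N : ℝ) ≤ n ^ (δ / 4) * (q / 2) := by
    refine hNle.trans ?_
    have e5 : Y ^ (1 / α) = Y ^ (1 / α - 1) * Y := by
      rw [← Real.rpow_add_one (by positivity)]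
      congr 1
      ring
    rw [e5, ← hY]
    refine mul_le_mul_of_nonneg_right ?_ (by positivity)
    calc Y ^ (1 / α - 1) ≤ n ^ (1 / α - 1) := Real.rpow_le_rpow (by positivity) hYn (by linarith)
      _ ≤ n ^ (δ / 4) := Real.rpow_le_rpow_of_exponent_le hn1 (by linarith)
  have hm : ∀ m ∈ near α N, N + q ≤ m * J := by
    intro m hm
    have h2 : Y / 2 ≤ m := by
      refine le_trans ?_ hm.1
      calc Y / 2 ≤ (Y ^ (1 / α) / 2) ^ α := by
            rw [Real.div_rpow (by positivity) (by norm_num), ← Real.rpow_mul (by positivity),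
              one_div_mul_cancel hα0.ne', Real.rpow_one]
            apply div_le_div_of_nonneg_left (by positivity) (by positivity)
            calc (2 : ℝ) ^ α ≤ 2 ^ (1 : ℝ) := Real.rpow_le_rpow_of_exponent_le (by norm_num) hα1.le
              _ = 2 := Real.rpow_one _
        _ ≤ (N : ℝ) ^ α := Real.rpow_le_rpow (by positivity) hNge hα0.le
    have h3 : (N : ℝ) + q ≤ m * J := by
      have h4 : (4 : ℝ) + 2 * n ^ (δ / 4) ≤ J := by linarith
      have h5 : (q : ℝ) / 4 ≤ m := by rw [hY] at h2; linarith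
      have hq0 : (0 : ℝ) ≤ q := Nat.cast_nonneg _
      calc (N : ℝ) + q ≤ n ^ (δ / 4) * (q / 2) + q := by linarith
        _ = (q / 4) * (4 + 2 * n ^ (δ / 4)) := by ring
        _ ≤ m * J := mul_le_mul h5 h4 (by positivity) (by positivity)
    exact_mod_cast h3
  obtain ⟨B, hB⟩ : ∃ B : ℕ, B = ⌊n ^ (θ - ε)⌋₊ := ⟨_, rfl⟩
  have hBle : (B : ℝ) ≤ n ^ (θ - ε) := by rw [hB]; exact Nat.floor_le (by positivity)
  obtain ⟨a, ha⟩ := transfer D x (card_pos.1 (by omega)) q J J N hq1.le hq2 B (by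
    intro j hj
    rw [hB]
    apply Nat.le_floor
    refine (hcon j ?_).le
    calc (j : ℝ) ≤ J := by exact_mod_cast hj
      _ ≤ n ^ δ := hJle
      _ ≤ n ^ η := Real.rpow_le_rpow_of_exponent_le hn1 hδη) (by
    have : Real.log q ≤ Real.log (2 * n) := Real.log_le_log (by linarith) hq2r
    linarith) (near α N) hm
  have h6 := hN₀ N hNN a
  have h7 : ((cov (near α N) N a).ncard : ℝ) ≤ ((N / q : ℕ) + 1 : ℝ) * ((J + 1) * (J + 1) * J * B) := by
    exact_mod_cast ha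
  have hq0 : (0 : ℝ) < q := by linarith
  have h8 : ((N / q : ℕ) : ℝ) + 1 ≤ n ^ δ := by
    have h9 : ((N / q : ℕ) : ℝ) ≤ N / q := Nat.cast_div_le
    have h10 : (N : ℝ) / q ≤ n ^ (δ / 4) / 2 := by
      rw [div_le_iff₀ hq0]
      linarith
    have h11 : (0 : ℝ) ≤ n ^ (δ / 4) := by positivity
    linarith
  have h12 : (J : ℝ) + 1 ≤ 2 * n ^ δ := by
    have : (1 : ℝ) ≤ n ^ δ := Real.one_le_rpow hn1 hδ0.le
    linarith
  have h13 : ((cov (near α N) N a).ncard : ℝ) ≤ 4 * n ^ (4 * δ + (θ - ε)) := by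
    refine h7.trans ?_
    have hn0 : 0 < n := by linarith
    calc ((N / q : ℕ) + 1 : ℝ) * ((J + 1) * (J + 1) * J * B)
        ≤ n ^ δ * ((2 * n ^ δ) * (2 * n ^ δ) * n ^ δ * n ^ (θ - ε)) := by gcongr
      _ = 4 * (n ^ δ * n ^ δ * n ^ δ * n ^ δ * n ^ (θ - ε)) := by ring
      _ = 4 * n ^ (4 * δ + (θ - ε)) := by
        rw [← Real.rpow_add hn0, ← Real.rpow_add hn0, ← Real.rpow_add hn0, ← Real.rpow_add hn0]
        congr 2
        ring
  have h14 : n ^ (θ - δ - δ) / 4 ≤ (N : ℝ) ^ (θ - δ - δ) := by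
    have h15 : (0 : ℝ) ≤ θ - δ - δ := by linarith
    calc n ^ (θ - δ - δ) / 4 ≤ n ^ (θ - δ - δ) / 4 ^ (θ - δ - δ) := by
          apply div_le_div_of_nonneg_left (by positivity) (by positivity)
          calc (4 : ℝ) ^ (θ - δ - δ) ≤ 4 ^ (1 : ℝ) :=
                Real.rpow_le_rpow_of_exponent_le (by norm_num) (by linarith)
            _ = 4 := Real.rpow_one _
      _ = (n / 4) ^ (θ - δ - δ) := (Real.div_rpow (by linarith) (by norm_num) _).symm
      _ ≤ _ := Real.rpow_le_rpow (by positivity) hN4 h15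
  have h16 : n ^ (θ - δ - δ) ≤ 16 * n ^ (4 * δ + (θ - ε)) := by linarith
  have h17 : n ^ (θ - δ - δ) = n ^ (ε - 6 * δ) * n ^ (4 * δ + (θ - ε)) := by
    rw [← Real.rpow_add (by linarith)]
    congr 1
    ring
  rw [h17] at h16
  have h18 := le_of_mul_le_mul_right h16 (by positivity)
  have h19 : n ^ (10 * δ) ≤ n ^ (ε - 6 * δ) := Real.rpow_le_rpow_of_exponent_le hn1 (by linarith)
  linarith

end Pool.Agent.Helper81.PK
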