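import Pool.Agent.Helper81.PK.Down

/-!
The deficiency divided by the exponent is nondecreasing.
-/

open Finset Filter Topology

namespace Pool.Agent.Helper81.PK

/-- the integers with the property `P` in `[N^α, 2 N^α)`. -/
def nearP (P : ℕ → Prop) (α : ℝ) (N : ℕ) : Set ℕ := {m : ℕ | P m ∧ m ∈ near α N}

lemma class_card {p : ℕ} (r : ZMod p) (M : ℕ) :
    ({n : ℕ | 1 ≤ n ∧ n ≤ M ∧ (n : ZMod p) = r}).ncard ≤ M / p + 1 := by
  have h := card_of_residues (q := p) (N := M) {r} {n : ℕ | 1 ≤ n ∧ n ≤ M ∧ (n : ZMod p) = r}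
    (fun n hn => ⟨hn.2.1, by rw [mem_singleton]; exact hn.2.2⟩)
  simpa using h

/-- the window `w`. -/
lemma shift_window {P : ℕ → Prop} {α : ℝ} {N M w : ℕ} (a : (m : ℕ) → ZMod m) (hw : (w + 1) * M ≤ N) :
    (cov (nearP P α N) M (fun p => a p - ((w * M : ℕ) : ZMod p))).ncard ≤
      ({n ∈ (cov_finite (nearP P α N) N a).toFinset | (n - 1) / M = w} : Finset ℕ).card := by
  classical
  rw [← Set.ncard_coe_finset]
  apply Set.ncard_le_ncard_of_injOn (fun n : ℕ => n + w * M)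
  · rintro n ⟨h1, h2, p, hp, h3⟩
    rw [mem_coe, mem_filter, Set.Finite.mem_toFinset]
    have hw' : w * M + M ≤ N := by rw [add_mul, one_mul] at hw; exact hw
    refine ⟨⟨by omega, by omega, p, hp, ?_⟩, ?_⟩
    · push_cast at h3 ⊢
      rw [h3]
      ring
    · apply Nat.div_eq_of_lt_le
      · omega
      · rw [add_mul, one_mul]
        omega
  · intro n _ n' _ h
    simpa using h

lemma sum_windows {M : ℕ} (W : ℕ) (E : Finset ℕ) (c : ℝ)
    (h : ∀ w < W, c ≤ (({n ∈ E | (n - 1) / M = w} : Finset ℕ).card : ℝ)) :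
    (W : ℝ) * c ≤ (E.card : ℝ) := by
  classical
  have h2 : ∑ w ∈ range W, (({n ∈ E | (n - 1) / M = w} : Finset ℕ).card) ≤ E.card := by
    rw [← card_biUnion]
    · apply card_le_card
      intro n hn
      rw [mem_biUnion] at hn
      obtain ⟨w, _, hn⟩ := hn
      exact (mem_filter.1 hn).1
    · intro w _ w' _ hne
      rw [Function.onFun, disjoint_left]
      intro n hn hn'
      rw [mem_filter] at hn hn'
      exact hne (hn.2.symm.trans hn'.2)
  calc (W : ℝ) * c = ∑ _w ∈ range W, c := by rw [sum_const, card_range, nsmul_eq_mul]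
    _ ≤ ∑ w ∈ range W, ((({n ∈ E | (n - 1) / M = w} : Finset ℕ).card : ℕ) : ℝ) :=
        sum_le_sum fun w hw => h w (mem_range.1 hw)
    _ ≤ _ := by exact_mod_cast h2

lemma lower_mono (P : ℕ → Prop) {α β s : ℝ} (hα : 0 < α) (hαβ : α < β) (hβ : β < 1) (hs : 0 ≤ s) (hs1 : s < 1)
    (h : Lower (nearP P β) (1 - β * s)) : Lower (nearP P α) (1 - α * s) := by
  classical
  intro ε hε
  have hβ0 : 0 < β := by linarith
  obtain ⟨δ, hδ0, hδε, hδβ⟩ : ∃ δ : ℝ, 0 < δ ∧ δ ≤ ε / 2 ∧ δ ≤ β * (1 - s) / 2 := by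
    have : 0 < β * (1 - s) := mul_pos hβ0 (by linarith)
    exact ⟨min (ε / 2) (β * (1 - s) / 2), lt_min (by positivity) (by positivity), min_le_left _ _, min_le_right _ _⟩
  obtain ⟨M₀, hM₀⟩ := h δ hδ0
  have hγ0 : 0 < α / β := by positivity
  have hγ1 : α / β < 1 := by rw [div_lt_one hβ0]; exact hαβ
  -- eventual inequalities in `M`
  have evM : ∀ᶠ M : ℝ in atTop, 8 ≤ M ^ (β * (1 - s) / 2) ∧ 2 ≤ M ^ β :=
    ((tendsto_rpow_atTop (by have := mul_pos hβ0 (show 0 < 1 - s by linarith); positivity)).eventually_ge_atTop 8).and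
      ((tendsto_rpow_atTop hβ0).eventually_ge_atTop 2)
  obtain ⟨M₁, hM₁⟩ := eventually_atTop.1 evM
  have evN : ∀ᶠ N : ℝ in atTop, (((M₀ : ℝ) ≤ N ^ (α / β) ∧ M₁ ≤ N ^ (α / β)) ∧ 1 ≤ N ^ (α / β)) ∧
      (2 * N ^ (α / β) ≤ N ∧ 16 ≤ N ^ (ε / 2)) := by
    have t := tendsto_rpow_atTop (y := α / β) hγ0
    refine (((t.eventually_ge_atTop _).and (t.eventually_ge_atTop _)).and (t.eventually_ge_atTop _)).and
      (Eventually.and ?_ ((tendsto_rpow_atTop (by positivity)).eventually_ge_atTop 16))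
    have t2 := tendsto_rpow_atTop (y := 1 - α / β) (by linarith)
    filter_upwards [t2.eventually_ge_atTop 2, eventually_gt_atTop (0 : ℝ)] with N hN hN0
    calc 2 * N ^ (α / β) ≤ N ^ (1 - α / β) * N ^ (α / β) := mul_le_mul_of_nonneg_right hN (by positivity)
      _ = N := by rw [← Real.rpow_add hN0]; simp
  have evN' := (tendsto_natCast_atTop_atTop (R := ℝ)).eventually evN
  obtain ⟨N₀, hN₀⟩ := eventually_atTop.1 evN'
  refine ⟨N₀ + 1, fun N hN a => ?_⟩
  obtain ⟨⟨⟨e1, e2⟩, e3⟩, e4, e5⟩ := hN₀ N (by omega)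
  have hN1 : (1 : ℝ) ≤ N := by exact_mod_cast (by omega : 1 ≤ N)
  have hN0 : (0 : ℝ) < N := by linarith
  obtain ⟨y, hy⟩ : ∃ y : ℝ, y = (N : ℝ) ^ (α / β) := ⟨_, rfl⟩
  rw [← hy] at e1 e2 e3 e4
  obtain ⟨M, hM⟩ : ∃ M : ℕ, M = ⌈y⌉₊ := ⟨_, rfl⟩
  have hMy : y ≤ M := by rw [hM]; exact Nat.le_ceil _
  have hMy1 : (M : ℝ) < y + 1 := by rw [hM]; exact Nat.ceil_lt_add_one (by linarith)
  have hMM₀ : M₀ ≤ M := by exact_mod_cast e1.trans hMy
  obtain ⟨f1, f2⟩ := hM₁ M (e2.trans hMy)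
  have hMN : (M : ℝ) ≤ N := by linarith
  have hM1 : (1 : ℝ) ≤ M := e3.trans hMy
  have hM0 : (0 : ℝ) < M := by linarith
  -- the ranges
  have hyβ : y ^ β = (N : ℝ) ^ α := by
    rw [hy, ← Real.rpow_mul hN0.le, div_mul_cancel₀ _ hβ0.ne']
  have hr1 : (N : ℝ) ^ α ≤ (M : ℝ) ^ β := by
    rw [← hyβ]
    exact Real.rpow_le_rpow (by linarith) hMy hβ0.le
  have hr2 : (M : ℝ) ^ β ≤ (N : ℝ) ^ α + 1 := by
    calc (M : ℝ) ^ β ≤ (y + 1) ^ β := Real.rpow_le_rpow hM0.le hMy1.le hβ0.le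
      _ ≤ y ^ β + 1 ^ β := Real.rpow_add_le_add_rpow (by linarith) (by norm_num) hβ0.le hβ.le
      _ = _ := by rw [hyβ, Real.one_rpow]
  -- one window
  have hwin : ∀ w < N / M, (M : ℝ) ^ (1 - β * s - δ) / 2 ≤
      (({n ∈ (cov_finite (nearP P α N) N a).toFinset | (n - 1) / M = w} : Finset ℕ).card : ℝ) := by
    intro w hw
    have g1 := shift_window (P := P) (α := α) (N := N) (M := M) (w := w) a
      ((Nat.mul_le_mul_right _ hw).trans (Nat.div_mul_le_self _ _))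
    refine le_trans ?_ (by exact_mod_cast g1 : ((cov (nearP P α N) M (fun p => a p - ((w * M : ℕ) : ZMod p))).ncard : ℝ) ≤ _)
    set b : (m : ℕ) → ZMod m := fun p => a p - ((w * M : ℕ) : ZMod p) with hb
    have g2 := hM₀ M hMM₀ b
    obtain ⟨c, hc⟩ : ∃ c : ℕ, c = ⌈2 * (N : ℝ) ^ α⌉₊ := ⟨_, rfl⟩
    have hc1 : 2 * (N : ℝ) ^ α ≤ c := by rw [hc]; exact Nat.le_ceil _
    have g3 : cov (nearP P β M) M b ⊆ cov (nearP P α N) M b ∪
        ({n : ℕ | 1 ≤ n ∧ n ≤ M ∧ (n : ZMod c) = b c} ∪ {n : ℕ | 1 ≤ n ∧ n ≤ M ∧ (n : ZMod (c + 1)) = b (c + 1)}) := by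
      rintro n ⟨h1, h2, p, ⟨hp, hp1, hp2⟩, h3⟩
      by_cases hp3 : (p : ℝ) < 2 * (N : ℝ) ^ α
      · left
        exact ⟨h1, h2, p, ⟨hp, hr1.trans hp1, hp3⟩, h3⟩
      · right
        push Not at hp3
        have h4 : c ≤ p := by rw [hc]; exact Nat.ceil_le.2 hp3
        have h5 : (p : ℝ) < c + 2 := by linarith
        have h6 : p < c + 2 := by exact_mod_cast h5
        have h7 : p = c ∨ p = c + 1 := by omega
        rcases h7 with h7 | h7
        · left
          subst h7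
          exact ⟨h1, h2, h3⟩
        · right
          subst h7
          exact ⟨h1, h2, h3⟩
    have hfin : ∀ p : ℕ, ({n : ℕ | 1 ≤ n ∧ n ≤ M ∧ (n : ZMod p) = b p}).Finite := fun p =>
      (Set.finite_Icc 1 M).subset fun n hn => ⟨hn.1, hn.2.1⟩
    have g4 : (cov (nearP P β M) M b).ncard ≤ (cov (nearP P α N) M b).ncard + ((M / c + 1) + (M / (c + 1) + 1)) := by
      refine (Set.ncard_le_ncard g3 ((cov_finite _ _ _).union ((hfin c).union (hfin (c + 1))))).trans ?_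
      refine (Set.ncard_union_le _ _).trans (Nat.add_le_add_left ?_ _)
      refine (Set.ncard_union_le _ _).trans ?_
      exact Nat.add_le_add (class_card _ _) (class_card _ _)
    have hcβ : (M : ℝ) ^ β ≤ c := by linarith
    have hc0 : (0 : ℝ) < c := by linarith
    have g5 : ((M / c : ℕ) : ℝ) ≤ (M : ℝ) ^ (1 - β) := by
      calc ((M / c : ℕ) : ℝ) ≤ M / c := Nat.cast_div_le
        _ ≤ M / (M : ℝ) ^ β := div_le_div_of_nonneg_left hM0.le (by positivity) hcβ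
        _ = _ := by rw [Real.rpow_sub hM0, Real.rpow_one]
    have g6 : ((M / (c + 1) : ℕ) : ℝ) ≤ (M : ℝ) ^ (1 - β) := by
      refine le_trans ?_ g5
      exact_mod_cast Nat.div_le_div_left (by omega) (by exact_mod_cast hc0)
    have g7 : (1 : ℝ) ≤ (M : ℝ) ^ (1 - β) := Real.one_le_rpow hM1 (by linarith)
    have g8 : ((cov (nearP P β M) M b).ncard : ℝ) ≤ (cov (nearP P α N) M b).ncard + 4 * (M : ℝ) ^ (1 - β) := by
      have : ((cov (nearP P β M) M b).ncard : ℝ) ≤ (cov (nearP P α N) M b).ncard +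
          ((((M / c : ℕ) : ℝ) + 1) + (((M / (c + 1) : ℕ) : ℝ) + 1)) := by exact_mod_cast g4
      linarith
    have g9 : 8 * (M : ℝ) ^ (1 - β) ≤ (M : ℝ) ^ (1 - β * s - δ) := by
      calc 8 * (M : ℝ) ^ (1 - β) ≤ (M : ℝ) ^ (β * (1 - s) / 2) * (M : ℝ) ^ (1 - β) :=
            mul_le_mul_of_nonneg_right f1 (by positivity)
        _ = (M : ℝ) ^ (β * (1 - s) / 2 + (1 - β)) := (Real.rpow_add hM0 _ _).symm
        _ ≤ _ := Real.rpow_le_rpow_of_exponent_le hM1 (by linarith)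
    linarith
  have htot := sum_windows (M := M) (N / M) (cov_finite (nearP P α N) N a).toFinset _ hwin
  rw [← Set.ncard_eq_toFinset_card _ (cov_finite (nearP P α N) N a)] at htot
  refine le_trans ?_ htot
  -- the size of the product
  have k1 : (N : ℝ) / M < ((N / M : ℕ) : ℝ) + 1 :=
    Nat.lt_floor_add_one ((N : ℝ) / M) |>.trans_eq (by rw [Nat.floor_div_eq_div])
  have k2 : (1 : ℝ) ≤ (N : ℝ) / M := by rw [one_le_div hM0]; exact hMN
  have k2' : (1 : ℝ) ≤ ((N / M : ℕ) : ℝ) := by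
    have : 1 ≤ N / M := (Nat.le_div_iff_mul_le (by exact_mod_cast hM0)).2 (by rw [one_mul]; exact_mod_cast hMN)
    exact_mod_cast this
  have k3 : (N : ℝ) / M / 2 ≤ ((N / M : ℕ) : ℝ) := by linarith
  have k4 : (M : ℝ) ≤ 2 * y := by linarith
  have k5 : (M : ℝ) ^ (β * s + δ) ≤ 4 * (N : ℝ) ^ (α * s + ε / 2) := by
    have hbs : 0 ≤ β * s + δ := by positivity
    have hbs2 : β * s + δ ≤ 2 := by nlinarith
    calc (M : ℝ) ^ (β * s + δ) ≤ (2 * y) ^ (β * s + δ) := Real.rpow_le_rpow hM0.le k4 hbs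
      _ = 2 ^ (β * s + δ) * y ^ (β * s + δ) := Real.mul_rpow (by norm_num) (by linarith)
      _ ≤ 2 ^ (2 : ℝ) * (N : ℝ) ^ (α * s + ε / 2) := by
          apply mul_le_mul _ _ (by positivity) (by positivity)
          · exact Real.rpow_le_rpow_of_exponent_le (by norm_num) hbs2
          · rw [hy, ← Real.rpow_mul hN0.le]
            apply Real.rpow_le_rpow_of_exponent_le hN1
            have : α / β * (β * s + δ) = α * s + α / β * δ := by field_simp
            rw [this]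
            have : α / β * δ ≤ 1 * δ := mul_le_mul_of_nonneg_right hγ1.le hδ0.le
            linarith
      _ = _ := by norm_num
  have k6 : (M : ℝ) ^ (1 - β * s - δ) = M / (M : ℝ) ^ (β * s + δ) := by
    rw [← Real.rpow_one_sub' hM0.le]
    · congr 1; ring
    · nlinarith
  have k7 : (N : ℝ) ^ (1 - α * s - ε) ≤ N / (4 * (N : ℝ) ^ (α * s + ε / 2)) / 4 := by
    rw [div_div, le_div_iff₀ (by positivity)]
    calc (N : ℝ) ^ (1 - α * s - ε) * (4 * (N : ℝ) ^ (α * s + ε / 2) * 4)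
        = 16 * ((N : ℝ) ^ (1 - α * s - ε) * (N : ℝ) ^ (α * s + ε / 2)) := by ring
      _ ≤ (N : ℝ) ^ (ε / 2) * ((N : ℝ) ^ (1 - α * s - ε) * (N : ℝ) ^ (α * s + ε / 2)) :=
          mul_le_mul_of_nonneg_right e5 (by positivity)
      _ = N := by
          rw [← Real.rpow_add hN0, ← Real.rpow_add hN0]
          ring_nf
          simp
  calc (N : ℝ) ^ (1 - α * s - ε) ≤ N / (4 * (N : ℝ) ^ (α * s + ε / 2)) / 4 := k7
    _ ≤ N / (M : ℝ) ^ (β * s + δ) / 4 := by
        apply div_le_div_of_nonneg_right _ (by norm_num)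
        exact div_le_div_of_nonneg_left hN0.le (by positivity) k5
    _ = (N / M / 2) * ((M : ℝ) ^ (1 - β * s - δ) / 2) := by
        rw [k6]
        field_simp
        ring
    _ ≤ ((N / M : ℕ) : ℝ) * ((M : ℝ) ^ (1 - β * s - δ) / 2) :=
        mul_le_mul_of_nonneg_right k3 (by positivity)

end Pool.Agent.Helper81.PK
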